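import Pool.Agent.H66.BfinDefs
import Pool.Agent.H37.Gen

/-! A bounded finite-one degree whose 1-degrees form a dense linear order. -/

namespace Pool.Agent.Results.MP_d57ee4_lc.Dense

open Pool.Agent.H66.Bfin Pool.Agent.H37 Filter

def Cst (G : ℕ → ℕ) (m : ℕ) : Prop := ∀ n, {y | G y = n + 2}.encard = m

def Bd (g : ℕ → ℕ) : Prop := ∃ c : ℕ, ∀ y, {x | g x = y}.encard ≤ c

def Ext (σ : ℕ → ℕ) : Prop := CI ∅ σ ∧ σ 0 = 0 ∧ σ 1 = 1 ∧ ∃ d, 0 < d ∧ Cst σ d

theorem enc_sum (G : ℕ → ℕ) (s : Finset ℕ) :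
    {y | G y ∈ s}.encard = ∑ u ∈ s, {y | G y = u}.encard := by
  induction s using Finset.induction_on with
  | empty => simp
  | insert a s ha ih =>
    rw [Finset.sum_insert ha, ← ih, ← Set.encard_union_eq (Set.disjoint_left.2 fun y h1 h2 =>
      ha (by rw [← show G y = a from h1]; exact h2))]
    congr 1; ext; simp

theorem fib {σ : ℕ → ℕ} {d : ℕ} (h : Cst σ d) (n : ℕ) :
    ∃ s : Finset ℕ, s.card = d ∧ ∀ u, u ∈ s ↔ σ u = n + 2 := by
  have f := Set.finite_of_encard_eq_coe (h n)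
  refine ⟨f.toFinset, ?_, by simp⟩
  have := h n
  rw [f.encard_eq_coe_toFinset_card] at this
  exact_mod_cast this

theorem ge2 {σ : ℕ → ℕ} (h0 : σ 0 = 0) (h1 : σ 1 = 1) {u n : ℕ} (h : σ u = n + 2) :
    ∃ k, u = k + 2 := by
  rcases u with _ | _ | k
  exacts [by omega, by simp only [zero_add] at h; omega, ⟨k, rfl⟩]

theorem Cst.comp {σ G : ℕ → ℕ} {d m : ℕ} (h : Cst σ d) (h0 : σ 0 = 0) (h1 : σ 1 = 1)
    (hG : Cst G m) : Cst (σ ∘ G) (d * m) := fun n => by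
  obtain ⟨s, rfl, hs⟩ := fib h n
  simp only [Function.comp, ← hs, enc_sum]
  rw [Finset.sum_congr rfl (g := fun _ => (m : ℕ∞)) fun u hu => by
    obtain ⟨k, rfl⟩ := ge2 h0 h1 ((hs u).1 hu); exact hG k]
  simp

theorem Ext.comp {σ τ : ℕ → ℕ} (h : Ext σ) (k : Ext τ) : Ext (σ ∘ τ) := by
  obtain ⟨h1, h2, h3, d, h4, h5⟩ := h
  obtain ⟨k1, k2, k3, e, k4, k5⟩ := k
  exact ⟨h1.comp k1, by simp [h2, k2], by simp [h3, k3], _, mul_pos h4 k4, h5.comp h2 h3 k5⟩

theorem remap {e : ℕ → ℕ} (he : CI ∅ e) (hm : StrictMono e) {i : ℕ} (i0 : i ≠ 0)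
    (hi : ∀ k, i ≠ e k + 2) : ∃ σ, Ext σ ∧ σ i = 1 ∧ (∀ u k, σ u = k + 2 ↔ u = e k + 2) ∧
      ∀ u, σ u = 1 → u = 1 ∨ u = i := by
  let σ : ℕ → ℕ := fun u => cond (decide (u = 1) || decide (u = i)) 1
    (((List.range u).find? fun k => decide (e k + 2 = u)).elim 0 (· + 2))
  have key : ∀ u k, σ u = k + 2 ↔ u = e k + 2 := fun u k => by
    by_cases hu : u = 1 ∨ u = i
    · have : σ u = 1 := by rcases hu with rfl | rfl <;> simp [σ]
      have := hi k
      omega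
    · have : (decide (u = 1) || decide (u = i)) = false := by simpa using hu
      simp only [σ, this, cond_false]
      cases h : (List.range u).find? fun k => decide (e k + 2 = u) with
      | none =>
        simp only [List.find?_eq_none, List.mem_range, decide_eq_true_eq] at h
        have := h k
        have := hm.le_apply (x := k)
        simp only [Option.elim]; omega
      | some j =>
        have : e j + 2 = u := by simpa using List.find?_some h
        simp only [Option.elim, ← this, add_left_inj, hm.injective.eq_iff]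
  refine ⟨σ, ⟨by fun_prop, by simp [σ, i0.symm], by simp [σ], 1, one_pos, fun n => by simp [key]⟩,
    by simp [σ], key, fun u h => by_contra fun hu => ?_⟩
  have : (decide (u = 1) || decide (u = i)) = false := by simpa using hu
  simp only [σ, this, cond_false] at h
  cases h' : (List.range u).find? fun k => decide (e k + 2 = u) <;> simp [h'] at h

theorem shift (N : ℕ) {i : ℕ} (i0 : i ≠ 0) (hi : i ≤ N) :
    ∃ σ, Ext σ ∧ σ i = 1 ∧ ∀ u ≤ N, (u = 1 ∨ u = i) ∨ σ u = 0 := by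
  obtain ⟨σ, h1, h2, h3, h4⟩ := remap (e := fun k => k + N) (by fun_prop)
    (fun _ _ h => by simpa using h) i0 (fun k => by omega)
  refine ⟨σ, h1, h2, fun u hu => ?_⟩
  rcases h : σ u with _ | _ | k
  exacts [Or.inr rfl, Or.inl (h4 u h), by have := (h3 u k).1 h; omega]

theorem thin {q g : ℕ → ℕ} (hq : Ext q) (hg : CI ∅ g) (hb : Bd g) :
    ∃ σ, Ext σ ∧ ∃ m, Even m ∧ Cst (σ ∘ q ∘ g) m := by
  obtain ⟨c, hc⟩ := hb
  obtain ⟨q1, -, -, d, -, q2⟩ := hq
  have bd : ∀ n, {y | q (g y) = n + 2}.encard ≤ (d * c : ℕ) := fun n => by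
    obtain ⟨s, rfl, hs⟩ := fib q2 n
    simp only [← hs, enc_sum]
    simpa using Finset.sum_le_card_nsmul s _ _ fun u _ => hc u
  have ex : ∃ m : ℕ, {n | (m : ℕ∞) < {y | q (g y) = n + 2}.encard}.Finite :=
    ⟨d * c, Set.finite_empty.subset fun n hn => (bd n).not_gt hn⟩
  classical
  obtain ⟨N, hN⟩ := (Nat.find_spec ex).bddAbove
  have inf : {n | (Nat.find ex : ℕ∞) ≤ {y | q (g y) = n + 2}.encard}.Infinite := by
    cases h : Nat.find ex with
    | zero => simpa using Set.infinite_univ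
    | succ m =>
      refine Set.Infinite.mono (fun n hn => ?_) (Nat.find_min ex (m := m) (by omega))
      exact Order.add_one_le_of_lt (show (m : ℕ∞) < _ from hn)
  generalize Nat.find ex = m at hN inf
  obtain ⟨f, f1, f2⟩ := CI.exists_choice (O := ∅) (p := fun (a : ℕ) (b : ℕ × ℕ) =>
    decide (a < b.1) && decide (m ≤ (List.range b.2).countP fun y => decide (q (g y) = b.1 + 2)))
    (by fun_prop) fun a => by
      obtain ⟨n, h1, h2⟩ := inf.exists_gt a
      have fin := Set.finite_of_encard_le_coe (bd n)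
      obtain ⟨s, hs⟩ := fin.bddAbove
      refine ⟨(n, s + 1), ?_⟩
      simp only [h2, decide_true, Bool.true_and, decide_eq_true_eq]
      change m ≤ Nat.count (fun y => q (g y) = n + 2) (s + 1)
      rw [Set.mem_setOf_eq, fin.encard_eq_coe_toFinset_card, Nat.cast_le] at h1
      rw [Nat.count_eq_card_filter_range]
      refine h1.trans (Finset.card_le_card fun y hy => ?_)
      have : q (g y) = n + 2 := by simpa using hy
      simpa [this, Nat.lt_succ_iff] using hs this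
  simp only [Bool.and_eq_true, decide_eq_true_eq] at f2
  let e : ℕ → ℕ := fun k => (fun a => (f a).1)^[k + 1] N
  have e1 : ∀ k, ∃ a, N ≤ a ∧ e k = (f a).1 ∧ e (k + 1) = (f (e k)).1 := fun k => by
    induction k with
    | zero => exact ⟨N, le_rfl, rfl, rfl⟩
    | succ k ih =>
      obtain ⟨a, h1, h2, h3⟩ := ih
      exact ⟨e k, h2 ▸ h1.trans (f2 a).1.le, h3, Function.iterate_succ_apply' _ _ _⟩
  obtain ⟨σ, s1, -, s2, -⟩ := remap (e := e) (i := 1) (by fun_prop)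
    (strictMono_nat_of_lt_succ fun k => by obtain ⟨a, -, -, h⟩ := e1 k; exact h ▸ (f2 _).1)
    one_ne_zero (by omega)
  have c1 : Cst (σ ∘ q ∘ g) m := fun k => by
    obtain ⟨a, h1, h2, -⟩ := e1 k
    simp only [Function.comp, s2, h2]
    refine le_antisymm (not_lt.1 fun h => (hN h).not_gt (h1.trans_lt (f2 a).1)) ?_
    exact (Nat.cast_le.2 (f2 a).2).trans (Nat.count_le_setENCard _)
  let τ : ℕ → ℕ := fun u => cond (decide (u = 0)) 0 (u / 2 + 1)
  have c2 : Cst τ 2 := fun n => by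
    rw [show {y | τ y = n + 2} = {2 * n + 2, 2 * n + 3} by
      ext y; by_cases h : y = 0 <;> simp [τ, h]; omega]
    exact Set.encard_pair (by omega)
  exact ⟨τ ∘ σ, Ext.comp ⟨by fun_prop, rfl, rfl, 2, two_pos, c2⟩ s1, 2 * m, even_two_mul m,
    c2.comp rfl rfl c1⟩

theorem inj {G H : ℕ → ℕ} (hG : CI ∅ G) (hH : CI ∅ H)
    (h : ∀ y, {x | G x = G y}.encard ≤ {z | H z = G y}.encard) :
    ∃ k, CI ∅ k ∧ k.Injective ∧ ∀ y, H (k y) = G y := by
  obtain ⟨k, k1, k2⟩ := CI.exists_choice (O := ∅) (p := fun y z : ℕ => decide (H z = G y) &&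
    decide ((List.range z).countP (fun x => decide (H x = G y)) =
      (List.range y).countP fun x => decide (G x = G y))) (by fun_prop) fun y => by
      have : ∀ hf : {z | H z = G y}.Finite, Nat.count (fun x => G x = G y) y < hf.toFinset.card :=
        fun hf => by
          have f := Set.finite_of_encard_le_coe ((h y).trans_eq hf.encard_eq_coe_toFinset_card)
          have := h y
          rw [f.encard_eq_coe_toFinset_card, hf.encard_eq_coe_toFinset_card, Nat.cast_le] at this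
          exact (Nat.count_lt_card f rfl).trans_le this
      exact ⟨_, by simpa using ⟨Nat.nth_mem _ this, Nat.count_nth this⟩⟩
  simp only [Bool.and_eq_true, decide_eq_true_eq] at k2
  refine ⟨k, k1, fun x y e => ?_, fun y => (k2 y).1⟩
  have e1 : G x = G y := by rw [← (k2 x).1, e, (k2 y).1]
  have := (k2 x).2
  rw [e, e1, (k2 y).2] at this
  exact Nat.count_injective (p := fun x => G x = G y) e1 rfl this.symm

def R2 (q g h : ℕ → ℕ) : Prop := (∃ y, q (g y) + q (h y) = 1) ∨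
  ∀ y n, q (g y) = n + 2 → q (h y) = n + 2

theorem gen : ∃ s : ℕ → ℕ → ℕ, (∀ b ≤ 1, {x | s 0 x = b}.Infinite) ∧ (∀ n, CI ∅ (s n) ∧
      ∀ j, ∃ x, s n x = j + 2) ∧ (∀ n m, n ≤ m → ∃ σ, Ext σ ∧ s m = σ ∘ s n) ∧
    (∀ x, ∃ n, s n x ≤ 1) ∧ (∀ g, CI ∅ g → Bd g → ∃ n m, Even m ∧ Cst (s n ∘ g) m) ∧
    ∀ g h, CI ∅ g → CI ∅ h → ∃ n, R2 (s n) g h := by
  have : Countable {g : ℕ → ℕ // CI ∅ g} :=
    ((countable_ci id).mono fun _ h => CI.of_empty h).to_subtype
  let p : ℕ → ℕ := fun x => cond (decide (x % 3 ≤ 1)) (x % 3) (x / 3 + 2)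
  obtain ⟨s, s0, s1, s2, s3⟩ := chain (P := ℕ → ℕ) (ι := ℕ ⊕ {g : ℕ → ℕ // CI ∅ g} ⊕
    {g : ℕ → ℕ // CI ∅ g} × {g : ℕ → ℕ // CI ∅ g}) (fun q p => ∃ σ, Ext σ ∧ q = σ ∘ p)
    (fun _ => ⟨id, ⟨CI.id', rfl, rfl, 1, one_pos, fun n => by simp⟩, rfl⟩)
    (by rintro _ _ r ⟨σ, h, rfl⟩ ⟨τ, k, rfl⟩; exact ⟨_, h.comp k, rfl⟩) Ext
    (fun i q => i.elim (fun x => q x ≤ 1) fun i => i.elim
      (fun g => Bd g.1 → ∃ m, Even m ∧ Cst (q ∘ g.1) m) fun g => R2 q g.1.1 g.2.1)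
    (by
      rintro (x | ⟨g, hg⟩ | ⟨⟨g, -⟩, h, -⟩) q hq
      · obtain ⟨σ, h1, -, h2⟩ := shift (q x + 1) one_ne_zero (by omega)
        refine ⟨_, h1.comp hq, ⟨σ, h1, rfl⟩, show σ (q x) ≤ 1 from ?_⟩
        rcases h2 (q x) (by omega) with (h | h) | h <;> simp [h, h1.2.2.1]
      · by_cases hb : Bd g
        · obtain ⟨σ, h1, h2⟩ := thin hq hg hb
          exact ⟨_, h1.comp hq, ⟨σ, h1, rfl⟩, fun _ => h2⟩
        · exact ⟨q, hq, ⟨id, ⟨CI.id', rfl, rfl, 1, one_pos, fun n => by simp⟩, rfl⟩,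
            fun h => (hb h).elim⟩
      · by_cases hb : ∀ y n, q (g y) = n + 2 → q (h y) = n + 2
        · exact ⟨q, hq, ⟨id, ⟨CI.id', rfl, rfl, 1, one_pos, fun n => by simp⟩, rfl⟩, Or.inr hb⟩
        push Not at hb
        obtain ⟨y, n, y1, y2⟩ := hb
        obtain ⟨σ, h1, h2, h3⟩ := shift (q (g y) + q (h y)) (i := if q (h y) = 1 then 1 else n + 2)
          (by split_ifs <;> omega) (by split_ifs <;> omega)
        refine ⟨_, h1.comp hq, ⟨σ, h1, rfl⟩, Or.inl ⟨y, show σ (q (g y)) + σ (q (h y)) = 1 from ?_⟩⟩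
        have a1 := h3 (q (g y)) (by omega)
        have a2 := h3 (q (h y)) (by omega)
        have := h1.2.2.1
        split_ifs at * with k
        · rw [k]; omega
        · rw [y1] at a1 ⊢; omega)
    p ⟨by fun_prop, rfl, rfl, 1, one_pos, fun n => by
      rw [show {y | p y = n + 2} = {3 * n + 2} by
        ext y; by_cases h : y % 3 ≤ 1 <;> simp [p, h] <;> omega]
      simp⟩
  refine ⟨s, fun b hb => Set.infinite_of_injective_forall_mem (f := fun x => 3 * x + b)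
    (fun x y h => by simpa using h) fun x => ?_, fun n => ⟨(s1 n).1, fun j => ?_⟩, s2,
    fun x => s3 (.inl x), fun g hg hb => (s3 (.inr (.inl ⟨g, hg⟩))).imp fun _ h => h hb,
    fun g h hg hh => s3 (.inr (.inr (⟨g, hg⟩, ⟨h, hh⟩)))⟩
  · have : (3 * x + b) % 3 = b := by omega
    simp [s0, p, this, hb]
  · obtain ⟨-, -, -, d, d0, h⟩ := s1 n
    exact Set.encard_pos.1 ((Nat.cast_pos.2 d0).trans_eq (h j).symm)

theorem result : ∃ A : ℕ → Prop, (∀ B ∈ Deg A, ∀ C ∈ Deg A, B ≤₁ C ∨ C ≤₁ B) ∧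
    (∀ B ∈ Deg A, ∀ C ∈ Deg A, B ≤₁ C → ¬C ≤₁ B →
      ∃ D ∈ Deg A, B ≤₁ D ∧ ¬D ≤₁ B ∧ D ≤₁ C ∧ ¬C ≤₁ D) ∧
    ∃ B ∈ Deg A, ∃ C ∈ Deg A, ¬B ≤₁ C := by
  obtain ⟨s, s0, s1, s2, s3, s4, s5⟩ := gen
  let A : ℕ → Prop := fun x => ∃ n, s n x = 1
  have up : ∀ {n m x b}, n ≤ m → b ≤ 1 → s n x = b → s m x = b := fun {n m x b} h hb k => by
    obtain ⟨σ, h1, h2⟩ := s2 n m h
    have := h1.2.1; have := h1.2.2.1
    rw [h2, Function.comp, k]
    interval_cases b <;> assumption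
  have a0 : ∀ {n x}, s n x = 0 → ¬A x := fun {n x} h ⟨m, k⟩ => by
    have := up (le_max_left n m) zero_le_one h
    have := up (le_max_right n m) le_rfl k
    omega
  have a1 : ∀ {n x y}, s n x = s n y → A x → A y := fun {n x y} h ⟨m, k⟩ => by
    obtain ⟨σ, -, h2⟩ := s2 n _ (le_max_left n m)
    exact ⟨max n m, by rw [← up (le_max_right n m) le_rfl k, h2, Function.comp, Function.comp, h]⟩
  have cup : ∀ {n m}, n ≤ m → ∃ d, 0 < d ∧ ∀ {g c}, Cst (s n ∘ g) c → Cst (s m ∘ g) (d * c) :=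
    fun {n m} h => by
      obtain ⟨σ, ⟨-, h0, h1, d, d0, hd⟩, h2⟩ := s2 n m h
      exact ⟨d, d0, fun k => h2 ▸ hd.comp h0 h1 k⟩
  have r2 : ∀ {g h}, CI ∅ g → CI ∅ h → (∀ y, A (g y) ↔ A (h y)) → ∀ n, ∃ m ≥ n,
      ∀ y j, s m (g y) = j + 2 → s m (h y) = j + 2 := fun {g h} hg hh e n => by
    obtain ⟨m, ⟨y, k⟩ | k⟩ := s5 g h hg hh
    · rcases Nat.add_eq_one_iff.1 k with k | k
      exacts [(a0 k.1 ((e y).2 ⟨m, k.2⟩)).elim, (a0 k.2 ((e y).1 ⟨m, k.1⟩)).elim]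
    · obtain ⟨σ, h1, h2⟩ := s2 m _ (le_max_right n m)
      refine ⟨max n m, le_max_left _ _, fun y j hj => ?_⟩
      rw [h2] at hj ⊢
      obtain ⟨i, hi⟩ := ge2 h1.2.1 h1.2.2.1 hj
      rw [← hj, Function.comp, Function.comp, k y i hi, hi]
  have cmp : ∀ {B C : ℕ → Prop} {g h n m m'}, CI ∅ g → CI ∅ h → (∀ x, B x ↔ A (g x)) →
      (∀ x, C x ↔ A (h x)) → Bfin A C → Cst (s n ∘ g) m → Cst (s n ∘ h) m' →
      (B ≤₁ C ↔ m ≤ m') := by
    rintro B C g h n m m' hg hh eg eh ⟨f, f1, f2, c, f3⟩ c1 c2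
    constructor
    · rintro ⟨k, k1, k2, k3⟩
      obtain ⟨l, l1, l2⟩ := r2 hg (hh.comp (CI.of_comp k1)) (fun y => by rw [← eg, ← eh, k3]) n
      obtain ⟨d, d0, hd⟩ := cup l1
      have := Set.encard_le_encard_of_injOn (s := {y | (s l ∘ g) y = 0 + 2})
        (t := {y | (s l ∘ h) y = 0 + 2}) (fun y hy => l2 y 0 hy) k2.injOn
      rw [hd c1, hd c2, Nat.cast_le] at this
      exact Nat.le_of_mul_le_mul_left this d0
    · intro hm
      obtain ⟨l, l1, l2⟩ := r2 (hh.comp (CI.of_comp f1)) CI.id' (fun y => by rw [← eh, ← f2]) n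
      obtain ⟨d, d0, hd⟩ := cup l1
      obtain ⟨k, k1, k2, k3⟩ := inj ((s1 l).1.comp hg) ((s1 l).1.comp hh) fun y => by
        by_cases hy : s l (g y) ≤ 1
        · refine le_top.trans_eq (Set.Infinite.encard_eq fun fin => s0 _ hy ?_).symm
          refine Set.Finite.of_finite_fibers f (fin.subset ?_) fun x _ =>
            (Set.finite_of_encard_le_coe (f3 x)).subset fun _ h => h.2
          rintro _ ⟨x, hx, rfl⟩
          have x1 := up l.zero_le hy hx
          have x2 := (f2 x).trans (eh _)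
          have x3 : s l (h (f x)) = 0 → s l x ≠ 1 := fun h k => a0 h (x2.1 ⟨l, k⟩)
          have x4 : s l x = 0 → s l (h (f x)) ≠ 1 := fun h k => a0 h (x2.2 ⟨l, k⟩)
          show s l (h (f x)) = _
          rcases e : s l (h (f x)) with _ | _ | j
          · have := x3 e; omega
          · by_contra k; exact x4 (by omega) e
          · have := l2 x j e; omega
        · obtain ⟨j, hj⟩ : ∃ j, s l (g y) = j + 2 := ⟨s l (g y) - 2, by omega⟩
          rw [hj]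
          exact (hd c1 j).trans_le ((Nat.cast_le.2 (Nat.mul_le_mul_left d hm)).trans_eq (hd c2 j).symm)
      exact ⟨k, k1.computable, k2, fun y => by
        rw [eg, eh]; exact ⟨a1 (k3 y).symm, a1 (k3 y)⟩⟩
  have two : ∀ {g h}, CI ∅ g → CI ∅ h → Bd g → Bd h → ∃ n m m', Even m ∧ Even m' ∧
      Cst (s n ∘ g) m ∧ Cst (s n ∘ h) m' := fun hg hh bg bh => by
    obtain ⟨n, m, h1, h2⟩ := s4 _ hg bg
    obtain ⟨n', m', k1, k2⟩ := s4 _ hh bh
    obtain ⟨d, -, hd⟩ := cup (le_max_left n n')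
    obtain ⟨d', -, hd'⟩ := cup (le_max_right n n')
    exact ⟨_, _, _, h1.mul_left _, k1.mul_left _, hd h2, hd' k2⟩
  have bump : ∀ {B : ℕ → Prop} {g n m}, CI ∅ g → (∀ x, B x ↔ A (g x)) → Bd g → Bfin A B →
      Cst (s n ∘ g) m → ∃ h, CI ∅ h ∧ A ∘ h ∈ Deg A ∧ Cst (s n ∘ h) (m + 1) := by
    rintro B g n m hg eg ⟨c, bg⟩ ⟨f, f1, f2, c', f3⟩ c1
    have := (s1 n).1
    obtain ⟨p, p1, p2⟩ := CI.exists_choice (O := ∅) (p := fun j x : ℕ => decide (s n x = j + 2))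
      (by fun_prop) fun j => by simpa using (s1 n).2 j
    simp only [decide_eq_true_eq] at p2
    let h : ℕ → ℕ := fun y => cond (decide (y % 2 = 0)) (g (y / 2)) (p (y / 2))
    have hh : CI ∅ h := by fun_prop
    have e0 : ∀ y, h (2 * y) = g y := fun y => by simp [h]
    have e1 : ∀ y, h (2 * y + 1) = p y := fun y => by
      simp [h, show (2 * y + 1) / 2 = y by omega]
    have i2 : Function.Injective fun y : ℕ => 2 * y := fun _ _ h => by simpa using h
    refine ⟨h, hh, ⟨⟨fun x => 2 * f x, (CI.mul (CI.const 2) (CI.of_comp f1)).computable, fun x => by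
      rw [Function.comp, e0, ← eg, f2], c', fun y => (Set.encard_le_encard fun x hx => ?_).trans
      (f3 (y / 2))⟩, h, hh.computable, fun _ => Iff.rfl, c + 1, fun u => ?_⟩, fun j => ?_⟩
    · have : 2 * f x = y := hx
      show f x = _
      omega
    · refine (Set.encard_le_encard (t := insert (2 * (s n u - 2) + 1) ((fun y => 2 * y) ''
        {y | g y = u})) fun y hy => ?_).trans ((Set.encard_insert_le _ _).trans ?_)
      · obtain ⟨y, rfl | rfl⟩ := y.even_or_odd'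
        · exact Or.inr ⟨y, (e0 y).symm.trans hy, rfl⟩
        · have : p y = u := (e1 y).symm.trans hy
          exact Or.inl (by rw [← this, p2]; rfl)
      · rw [i2.encard_image]; push_cast; gcongr; exact bg u
    · rw [show {y | (s n ∘ h) y = j + 2} = insert (2 * j + 1) ((fun y => 2 * y) ''
        {y | (s n ∘ g) y = j + 2}) by
          ext y
          obtain ⟨y, rfl | rfl⟩ := y.even_or_odd' <;> simp [e0, e1, p2] <;> omega,
        Set.encard_insert_of_notMem (by simp; omega), i2.encard_image, c1 j]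
      simp
  refine ⟨A, ?_, ?_, ?_⟩
  · rintro B ⟨b1, g, g1, g2, g3⟩ C ⟨c1, h, h1, h2, h3⟩
    obtain ⟨n, m, m', -, -, k1, k2⟩ := two (.of_comp g1) (.of_comp h1) g3 h3
    rw [cmp (.of_comp g1) (.of_comp h1) g2 h2 c1 k1 k2, cmp (.of_comp h1) (.of_comp g1) h2 g2 b1 k2 k1]
    exact le_total _ _
  · rintro B ⟨b1, g, g1, g2, g3⟩ C ⟨c1, h, h1, h2, h3⟩ - hn
    replace g1 : CI ∅ g := .of_comp g1
    replace h1 : CI ∅ h := .of_comp h1
    obtain ⟨n, m, m', ⟨a, e1⟩, ⟨b, e2⟩, k1, k2⟩ := two g1 h1 g3 h3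
    obtain ⟨p, p1, p2, p3⟩ := bump g1 g2 g3 b1 k1
    rw [cmp h1 g1 h2 g2 b1 k2 k1] at hn
    refine ⟨_, p2, ?_⟩
    have r : ∀ x, (A ∘ p) x ↔ A (p x) := fun _ => Iff.rfl
    rw [cmp g1 p1 g2 r p2.1 k1 p3, cmp p1 g1 r g2 b1 p3 k1, cmp p1 h1 r h2 c1 p3 k2,
      cmp h1 p1 h2 r p2.1 k2 p3]
    omega
  · have bi : Bd id := ⟨1, fun y => by simp⟩
    have b1 : Bfin A A := ⟨id, Computable.id, fun _ => Iff.rfl, bi⟩
    obtain ⟨n, m, -, k⟩ := s4 id CI.id' bi
    obtain ⟨p, p1, p2, p3⟩ := bump (g := id) CI.id' (fun _ => Iff.rfl) bi b1 k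
    refine ⟨_, p2, A, ⟨b1, b1⟩, ?_⟩
    rw [cmp (B := A ∘ p) (C := A) (h := id) p1 CI.id' (fun _ => Iff.rfl) (fun _ => Iff.rfl) b1 p3 k]
    omega

end Pool.Agent.Results.MP_d57ee4_lc.Dense
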